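import Mathlib
import Pool.Agent.H668R3.NcInt.Om
import Pool.Agent.Y53.SD.Last

/-!
# The noncommutative integral can vanish on an increasing sequence with limit one

For every real `n > 0` there is a spectral triple `(A, H, D)` of dimension `n`, with `⟨D⟩^{-n}` in
`M_{1,∞}`, for which the bicommutant `A''` contains no nonzero operator of finite rank (it is a
maximal abelian von Neumann algebra without minimal projections), and positive elements
`P_0 ≤ P_1 ≤ ...` of `A` converging strongly to the identity with `Φ_ω(P_m) = 0` for all `m`, while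
`Φ_ω(1) ≥ 1`, for every Dixmier trace.  So `Φ_ω` is not normal on `A''`, in a strong sense.

The Hilbert space and the algebra are those of the starting result `NotNormal` (dimension one); `D`
is the function of the operator used there for which `⟨D⟩^n` does not depend on `n`.
-/

set_option autoImplicit false

open Filter Topology
open scoped InnerProductSpace ComplexOrder

namespace Pool.Agent.Results.MP_9105af_an.EveryDimension

open Pool.Agent.H668R3.NcInt

theorem separable_L2 : TopologicalSpace.SeparableSpace (L2 Ix) := by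
  rw [← TopologicalSpace.isSeparable_univ_iff]
  have h1 : TopologicalSpace.IsSeparable (Set.range (fun p : Ix => (e p : L2 Ix))) :=
    (Set.countable_range _).isSeparable
  have h2 := (h1.span (R := ℂ)).closure
  refine h2.mono fun x _ => ?_
  refine mem_closure_of_tendsto (hasSum_e x) (Filter.Eventually.of_forall fun s => ?_)
  exact Submodule.sum_mem _ fun i _ => Submodule.smul_mem _ _ (Submodule.subset_span ⟨i, rfl⟩)

theorem result (n : ℝ) (hn : 0 < n) :
    ∃ (H : Type) (_ : NormedAddCommGroup H) (_ : InnerProductSpace ℂ H) (_ : CompleteSpace H)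
      (_ : TopologicalSpace.SeparableSpace H) (T : SpectralTriple H) (P : ℕ → (H →L[ℂ] H)),
      T.IsDim n ∧ T.PowMemM1inf n ∧ T.NoFiniteRank ∧ T.MaximalAbelian ∧
      T.NoMinimalProjection ∧ (∀ m, P m ∈ T.A) ∧ IncreasesTo P 1 ∧
      (∃ ω : (ℕ → ℝ) → ℝ, IsDilationLimit ω) ∧
      ∀ ω : (ℕ → ℝ) → ℝ, IsDilationLimit ω →
        (∀ m, T.Phi n ω (P m) = 0) ∧ 1 ≤ (T.Phi n ω 1).re ∧ ¬ T.PhiNormal n ω := by
  exact ⟨L2 Ix, inferInstance, inferInstance, inferInstance, separable_L2,
    Pool.Agent.Y53.SD.STn hn, Sm, Pool.Agent.Y53.SD.isDim_n hn, Pool.Agent.Y53.SD.memM1_n hn,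
    Pool.Agent.Y53.SD.noFin hn, Pool.Agent.Y53.SD.maxAb hn, Pool.Agent.Y53.SD.noMin hn,
    Pool.Agent.Y53.SD.mem_A hn, Pool.Agent.Y53.SD.Sm_incr, ⟨om, om_isDilationLimit⟩,
    fun ω hω => ⟨Pool.Agent.Y53.SD.Phi_Sm_n hn ω hω, Pool.Agent.Y53.SD.Phi_one_n hn ω hω,
      Pool.Agent.Y53.SD.not_normal_n hn ω hω⟩⟩

end Pool.Agent.Results.MP_9105af_an.EveryDimension
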